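import Mathlib
import Pool.Agent.H7.Psd

/-! The minimum degree is at most the lower PSD forcing irredundance number. -/

namespace Pool.Agent.Results.MP_3c4d8f_co.MinDeg

open Finset Pool.Agent.H7.Psd

/-- A PSD fort: a nonempty vertex set `F` such that no vertex outside `F` has exactly one
neighbour in a connected component of the subgraph induced on `F`. -/
def IsPSDFort {V : Type} (G : SimpleGraph V) (F : Set V) : Prop :=
  F.Nonempty ∧ ∀ v, v ∉ F → ∀ W : (G.induce F).ConnectedComponent,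
    {w : V | G.Adj v w ∧ w ∈ Subtype.val '' W.supp}.ncard ≠ 1

/-- `S` is a `Z₊`Ir-set: every `u ∈ S` has a PSD fort `F` with `S ∩ F = {u}`. -/
def IsZIr {V : Type} (G : SimpleGraph V) (S : Set V) : Prop :=
  ∀ u ∈ S, ∃ F : Set V, IsPSDFort G F ∧ S ∩ F = {u}

/-- The lower PSD forcing irredundance number: the least size of an inclusion-maximal
`Z₊`Ir-set. -/
noncomputable def zir {V : Type} (G : SimpleGraph V) : ℕ :=
  sInf {n : ℕ | ∃ S : Set V, Maximal (IsZIr G) S ∧ S.ncard = n}

variable {V : Type} [Fintype V] [DecidableEq V] {G : SimpleGraph V} [DecidableRel G.Adj]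

theorem psd_of (Y : Finset V) (hne : Y.Nonempty) (hF : StdFort G Y) (hc : Conn G Y) :
    IsPSDFort G (Y : Set V) := by
  classical
  refine ⟨by simpa using hne, fun v hv W => ?_⟩
  have hZ : Y.filter (fun w => w ∈ Subtype.val '' W.supp) = Y := by
    by_contra hna
    obtain ⟨x, hx⟩ := W.nonempty_supp
    obtain ⟨a, ha, b, hb, hbZ, hab⟩ := hc _ (filter_subset _ _)
      ⟨x.1, mem_filter.mpr ⟨x.2, x, hx, rfl⟩⟩ hna
    obtain ⟨a', ha', rfl⟩ := (mem_filter.mp ha).2
    refine hbZ (mem_filter.mpr ⟨hb, ⟨b, hb⟩, ?_, rfl⟩)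
    exact (W.mem_supp_congr_adj (show (G.induce (Y : Set V)).Adj a' ⟨b, hb⟩ from hab)).mp ha'
  have hs : {w : V | G.Adj v w ∧ w ∈ Subtype.val '' W.supp} = (Y.filter (G.Adj v) : Set V) := by
    ext w
    simp only [Set.mem_ofPred_eq, coe_filter]
    constructor
    · rintro ⟨a, w', _, rfl⟩
      exact ⟨w'.2, a⟩
    · rintro ⟨a, b⟩
      rw [← hZ] at a
      exact ⟨b, (mem_filter.mp a).2⟩
  rw [hs, Set.ncard_coe_finset]
  exact hF v hv

theorem of_psd (F : Set V) (hF : IsPSDFort G F) (u : V) (hu : u ∈ F) :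
    ∃ W : Finset V, u ∈ W ∧ (∀ x ∈ W, x ∈ F) ∧ StdFort G W ∧ Conn G W := by
  classical
  set K := (G.induce F).connectedComponentMk ⟨u, hu⟩ with hK
  refine ⟨univ.filter (fun w => w ∈ Subtype.val '' K.supp),
    mem_filter.mpr ⟨mem_univ _, ⟨u, hu⟩, rfl, rfl⟩, ?_, ?_, ?_⟩
  · intro x hx
    obtain ⟨x', _, rfl⟩ := (mem_filter.mp hx).2
    exact x'.2
  · intro z hz
    by_cases hzF : z ∈ F
    · rw [filter_eq_empty_iff.mpr]
      · simp
      · intro y hy hzy
        obtain ⟨y', hy', rfl⟩ := (mem_filter.mp hy).2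
        refine hz (mem_filter.mpr ⟨mem_univ _, ⟨z, hzF⟩, ?_, rfl⟩)
        exact (K.mem_supp_congr_adj (show (G.induce F).Adj ⟨z, hzF⟩ y' from hzy)).mpr hy'
    · have h := hF.2 z hzF K
      rw [← Set.ncard_coe_finset]
      convert h using 2
      ext w
      simp [and_comm]
  · intro Z hZ hne hna
    by_contra hcon
    push Not at hcon
    obtain ⟨a, ha⟩ := hne
    obtain ⟨a', ha', rfl⟩ := (mem_filter.mp (hZ ha)).2
    apply hna
    refine Subset.antisymm hZ fun b hb => ?_
    obtain ⟨b', hb', rfl⟩ := (mem_filter.mp hb).2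
    have hr : (G.induce F).Reachable a' b' := K.reachable_of_mem_supp ha' hb'
    rw [SimpleGraph.reachable_iff_reflTransGen] at hr
    clear hb
    induction hr with
    | refl => exact ha
    | @tail p q _ hpq ih =>
      have hp : p ∈ K.supp := (K.mem_supp_congr_adj hpq).mpr hb'
      by_contra hq
      exact hcon p.1 (ih hp) q.1 (mem_filter.mpr ⟨mem_univ _, q, hb', rfl⟩) hq hpq

theorem le_card [Nonempty V] (S : Set V) (hS : Maximal (IsZIr G) S) : G.minDegree ≤ S.ncard := by
  classical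
  by_contra hlt
  have hc : S.toFinset.card = S.ncard := (Set.ncard_eq_toFinset_card' S).symm
  have hk : ∀ v, S.toFinset.card < G.degree v := fun v => by
    have := G.minDegree_le_degree v
    omega
  obtain ⟨A, v, hv, hAS, hA, hAc, hall⟩ := main S.toFinset hk
  have hvS : v ∉ S := fun h => disjoint_left.mp hAS hv (Set.mem_toFinset.mpr h)
  have hZ : IsZIr G (insert v S) := by
    intro u hu
    rcases Set.mem_insert_iff.mp hu with rfl | huS
    · refine ⟨A, psd_of A ⟨u, hv⟩ hA hAc, ?_⟩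
      ext x
      simp only [Set.mem_inter_iff, Set.mem_insert_iff, mem_coe, Set.mem_singleton_iff]
      constructor
      · rintro ⟨h | h, hx⟩
        · exact h
        · exact absurd (Set.mem_toFinset.mpr h) (disjoint_left.mp hAS hx)
      · rintro rfl
        exact ⟨Or.inl rfl, hv⟩
    · obtain ⟨F, hF, hSF⟩ := hS.1 u huS
      have huF : u ∈ F := (show u ∈ S ∩ F by rw [hSF]; rfl).2
      obtain ⟨W, a, b, c, d⟩ := of_psd F hF u huF
      obtain ⟨Y, e, f, g, h, i⟩ := hall u (Set.mem_toFinset.mpr huS) W a (fun s hs hsW => by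
        have : s ∈ S ∩ F := ⟨Set.mem_toFinset.mp hs, b s hsW⟩
        rw [hSF] at this; exact this) c d
      refine ⟨Y, psd_of Y ⟨u, e⟩ h i, ?_⟩
      ext x
      simp only [Set.mem_inter_iff, Set.mem_insert_iff, mem_coe, Set.mem_singleton_iff]
      constructor
      · rintro ⟨rfl | h1, hx⟩
        · exact absurd hx f
        · exact g x (Set.mem_toFinset.mpr h1) hx
      · rintro rfl
        exact ⟨Or.inr huS, e⟩
  exact hvS (hS.2 hZ (Set.subset_insert v S) (Set.mem_insert v S))

theorem result {V : Type} [Fintype V] [Nonempty V] (G : SimpleGraph V) [DecidableRel G.Adj] :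
    G.minDegree ≤ zir G := by
  classical
  have hne : {n : ℕ | ∃ S : Set V, Maximal (IsZIr G) S ∧ S.ncard = n}.Nonempty := by
    obtain ⟨S, _, hS⟩ := Finite.exists_le_maximal (p := IsZIr G) (a := (∅ : Set V))
      (fun u hu => absurd hu (Set.notMem_empty u))
    exact ⟨_, S, hS, rfl⟩
  obtain ⟨S, hS, h⟩ := Nat.sInf_mem hne
  unfold zir
  rw [← h]
  exact le_card S hS

end Pool.Agent.Results.MP_3c4d8f_co.MinDeg
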